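import Pool.Agent.helper60.JR.SpecX

/-!
# Project jr: (MP_70a088_an): row XCH: the chordal distance
-/

set_option autoImplicit false

open Complex Metric Set Filter Topology MeasureTheory
open RTB (RM fd)
open JR

noncomputable section

namespace JX

/-- the Hermitian length of the vector `(z, w)`. -/
def XCH_N (z w : ℂ) : ℝ := Real.sqrt (‖z‖ ^ 2 + ‖w‖ ^ 2)

lemma XCH_Neq (z w : ℂ) : XCH_N z w = ‖(WithLp.toLp 2 (z, w) : WithLp 2 (ℂ × ℂ))‖ := by
  rw [WithLp.prod_norm_eq_of_L2]; rfl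

lemma XCH_Npos (z w : ℂ) (h : z ≠ 0 ∨ w ≠ 0) : 0 < XCH_N z w := by
  apply Real.sqrt_pos.2
  rcases h with h | h
  · have := norm_pos_iff.2 h; positivity
  · have := norm_pos_iff.2 h; positivity

lemma XCH_Nadd (a b c e : ℂ) : XCH_N (a + c) (b + e) ≤ XCH_N a b + XCH_N c e := by
  rw [XCH_Neq, XCH_Neq, XCH_Neq]
  exact norm_add_le (WithLp.toLp 2 (a, b) : WithLp 2 (ℂ × ℂ)) (WithLp.toLp 2 (c, e))

lemma XCH_Nmul (s a b : ℂ) : XCH_N (s * a) (s * b) = ‖s‖ * XCH_N a b := by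
  rw [XCH_Neq, XCH_Neq]
  exact norm_smul s (WithLp.toLp 2 (a, b) : WithLp 2 (ℂ × ℂ))

lemma XCH_CS (z w z' w' : ℂ) : ‖z * w' - z' * w‖ ≤ XCH_N z w * XCH_N z' w' := by
  have h1 : ‖z * w' - z' * w‖ ≤ ‖z‖ * ‖w'‖ + ‖z'‖ * ‖w‖ := by
    refine (norm_sub_le _ _).trans ?_
    rw [norm_mul, norm_mul]
  refine h1.trans ?_
  unfold XCH_N
  rw [← Real.sqrt_mul (by positivity)]
  apply Real.le_sqrt_of_sq_le
  nlinarith [sq_nonneg (‖z‖ * ‖z'‖ - ‖w‖ * ‖w'‖)]

lemma XCH_Ndiv (z w : ℂ) (hw : w ≠ 0) : XCH_N z w = ‖w‖ * Real.sqrt (1 + ‖z / w‖ ^ 2) := by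
  have hp := norm_pos_iff.2 hw
  unfold XCH_N
  rw [norm_div]
  have : ‖z‖ ^ 2 + ‖w‖ ^ 2 = ‖w‖ ^ 2 * (1 + (‖z‖ / ‖w‖) ^ 2) := by field_simp; ring
  rw [this, Real.sqrt_mul (by positivity), Real.sqrt_sq hp.le]

lemma XCH_N0 (z : ℂ) : XCH_N z 0 = ‖z‖ := by
  unfold XCH_N
  rw [norm_zero]
  simp [Real.sqrt_sq (norm_nonneg z)]

lemma XCH_zz (z w : ℂ) : ch (z : S) (w : S) = ‖z - w‖ / (Real.sqrt (1 + ‖z‖ ^ 2) * Real.sqrt (1 + ‖w‖ ^ 2)) := rfl

lemma XCH_zi (z : ℂ) : ch (z : S) OnePoint.infty = 1 / Real.sqrt (1 + ‖z‖ ^ 2) := rfl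

lemma XCH_iz (z : ℂ) : ch OnePoint.infty (z : S) = 1 / Real.sqrt (1 + ‖z‖ ^ 2) := rfl

lemma XCH_ii : ch OnePoint.infty OnePoint.infty = 0 := rfl

lemma XCH_fml (z w z' w' : ℂ) (h : z ≠ 0 ∨ w ≠ 0) (h' : z' ≠ 0 ∨ w' ≠ 0) : ch (pt z w) (pt z' w') = ‖z * w' - z' * w‖ / (XCH_N z w * XCH_N z' w') := by
  by_cases hw : w = 0
  · by_cases hw' : w' = 0
    · subst hw; subst hw'
      simp only [pt, if_true, XCH_ii]
      simp
    · subst hw
      have hz : z ≠ 0 := by simpa using h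
      have h1 : pt z 0 = OnePoint.infty := by simp [pt]
      have h2 : pt z' w' = ((z' / w' : ℂ) : S) := by simp [pt, hw']
      rw [h1, h2, XCH_iz, XCH_N0, XCH_Ndiv z' w' hw']
      have hzp := norm_pos_iff.2 hz
      have hwp := norm_pos_iff.2 hw'
      have hs : 0 < Real.sqrt (1 + ‖z' / w'‖ ^ 2) := Real.sqrt_pos.2 (by positivity)
      have : z * w' - z' * 0 = z * w' := by ring
      rw [this, norm_mul]
      field_simp
  · by_cases hw' : w' = 0
    · subst hw'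
      have hz : z' ≠ 0 := by simpa using h'
      have h1 : pt z' 0 = OnePoint.infty := by simp [pt]
      have h2 : pt z w = ((z / w : ℂ) : S) := by simp [pt, hw]
      rw [h1, h2, XCH_zi, XCH_N0, XCH_Ndiv z w hw]
      have hzp := norm_pos_iff.2 hz
      have hwp := norm_pos_iff.2 hw
      have hs : 0 < Real.sqrt (1 + ‖z / w‖ ^ 2) := Real.sqrt_pos.2 (by positivity)
      have : z * 0 - z' * w = -(z' * w) := by ring
      rw [this, norm_neg, norm_mul]
      field_simp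
    · have h1 : pt z w = ((z / w : ℂ) : S) := by simp [pt, hw]
      have h2 : pt z' w' = ((z' / w' : ℂ) : S) := by simp [pt, hw']
      rw [h1, h2, XCH_zz, XCH_Ndiv z w hw, XCH_Ndiv z' w' hw']
      have hwp := norm_pos_iff.2 hw
      have hwp' := norm_pos_iff.2 hw'
      have hs : 0 < Real.sqrt (1 + ‖z / w‖ ^ 2) := Real.sqrt_pos.2 (by positivity)
      have hs' : 0 < Real.sqrt (1 + ‖z' / w'‖ ^ 2) := Real.sqrt_pos.2 (by positivity)
      have h3 : z * w' - z' * w = (w * w') * (z / w - z' / w') := by field_simp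
      rw [h3, norm_mul, norm_mul]
      field_simp

lemma XCH_pt (p : S) : pt (hx p) (hy p) = p ∧ (hx p ≠ 0 ∨ hy p ≠ 0) := by
  induction p using OnePoint.rec with
  | infty => exact ⟨by simp [pt, hy], Or.inl (by simp [hx])⟩
  | coe z =>
    have h1 : hx (z : S) = z := rfl
    have h2 : hy (z : S) = 1 := rfl
    rw [h1, h2]
    exact ⟨by simp [pt], Or.inr one_ne_zero⟩

lemma XCH_ff (p q : S) : ch p q = ‖hx p * hy q - hx q * hy p‖ / (XCH_N (hx p) (hy p) * XCH_N (hx q) (hy q)) := by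
  have h := XCH_fml (hx p) (hy p) (hx q) (hy q) (XCH_pt p).2 (XCH_pt q).2
  rwa [(XCH_pt p).1, (XCH_pt q).1] at h

lemma XCH_sym (p q : S) : ch p q = ch q p := by
  rw [XCH_ff p q, XCH_ff q p, mul_comm (XCH_N (hx p) (hy p)), ← norm_neg]
  congr 2
  ring

lemma XCH_nn (p q : S) : 0 ≤ ch p q := by
  rw [XCH_ff p q]
  have h1 := XCH_Npos _ _ (XCH_pt p).2
  have h2 := XCH_Npos _ _ (XCH_pt q).2
  positivity

lemma XCH_le1 (p q : S) : ch p q ≤ 1 := by
  rw [XCH_ff p q]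
  have h1 := XCH_Npos _ _ (XCH_pt p).2
  have h2 := XCH_Npos _ _ (XCH_pt q).2
  rw [div_le_one (by positivity)]
  exact XCH_CS _ _ _ _

lemma XCH_sq1 (z : ℂ) : 0 < Real.sqrt (1 + ‖z‖ ^ 2) := Real.sqrt_pos.2 (by positivity)

lemma XCH_sq2 (z : ℂ) : 1 ≤ Real.sqrt (1 + ‖z‖ ^ 2) := by
  apply Real.le_sqrt_of_sq_le
  nlinarith [sq_nonneg ‖z‖]

lemma XCH_eq0 (p q : S) : ch p q = 0 ↔ p = q := by
  induction p using OnePoint.rec with
  | infty =>
    induction q using OnePoint.rec with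
    | infty => simp [XCH_ii]
    | coe w =>
      rw [XCH_iz]
      have := XCH_sq1 w
      constructor
      · intro h
        have h3 : 0 < 1 / Real.sqrt (1 + ‖w‖ ^ 2) := by positivity
        linarith
      · intro h
        exact absurd h.symm (OnePoint.coe_ne_infty w)
  | coe z =>
    induction q using OnePoint.rec with
    | infty =>
      rw [XCH_zi]
      have := XCH_sq1 z
      constructor
      · intro h
        have h3 : 0 < 1 / Real.sqrt (1 + ‖z‖ ^ 2) := by positivity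
        linarith
      · intro h
        exact absurd h (OnePoint.coe_ne_infty z)
    | coe w =>
      rw [XCH_zz]
      have h1 := XCH_sq1 z
      have h2 := XCH_sq1 w
      constructor
      · intro h
        have h3 : ‖z - w‖ = 0 := by
          rcases div_eq_zero_iff.1 h with h | h
          · exact h
          · exfalso
            have : 0 < Real.sqrt (1 + ‖z‖ ^ 2) * Real.sqrt (1 + ‖w‖ ^ 2) := by positivity
            linarith
        have h4 : z = w := by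
          have := norm_eq_zero.1 h3
          exact sub_eq_zero.1 this
        rw [h4]
      · intro h
        have h4 : z = w := OnePoint.coe_injective h
        rw [h4]
        simp

lemma XCH_tri (p q r : S) : ch p r ≤ ch p q + ch q r := by
  rw [XCH_ff p r, XCH_ff p q, XCH_ff q r]
  have h1 := XCH_Npos _ _ (XCH_pt p).2
  have h2 := XCH_Npos _ _ (XCH_pt q).2
  have h3 := XCH_Npos _ _ (XCH_pt r).2
  set P := XCH_N (hx p) (hy p)
  set Q := XCH_N (hx q) (hy q)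
  set R := XCH_N (hx r) (hy r)
  have hk : ‖hx p * hy r - hx r * hy p‖ * Q ≤ ‖hx q * hy r - hx r * hy q‖ * P + ‖hx p * hy q - hx q * hy p‖ * R := by
    have e1 : ‖hx p * hy r - hx r * hy p‖ * Q = XCH_N ((hx p * hy r - hx r * hy p) * hx q) ((hx p * hy r - hx r * hy p) * hy q) := (XCH_Nmul _ _ _).symm
    have e2 : ‖hx q * hy r - hx r * hy q‖ * P = XCH_N ((hx q * hy r - hx r * hy q) * hx p) ((hx q * hy r - hx r * hy q) * hy p) := (XCH_Nmul _ _ _).symm
    have e3 : ‖hx p * hy q - hx q * hy p‖ * R = XCH_N ((hx p * hy q - hx q * hy p) * hx r) ((hx p * hy q - hx q * hy p) * hy r) := (XCH_Nmul _ _ _).symm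
    rw [e1, e2, e3]
    have e4 : (hx p * hy r - hx r * hy p) * hx q = (hx q * hy r - hx r * hy q) * hx p + (hx p * hy q - hx q * hy p) * hx r := by ring
    have e5 : (hx p * hy r - hx r * hy p) * hy q = (hx q * hy r - hx r * hy q) * hy p + (hx p * hy q - hx q * hy p) * hy r := by ring
    rw [e4, e5]
    exact XCH_Nadd _ _ _ _
  have e6 : ‖hx p * hy r - hx r * hy p‖ / (P * R) = (‖hx p * hy r - hx r * hy p‖ * Q) / (P * Q * R) := by
    field_simp
  have e7 : ‖hx p * hy q - hx q * hy p‖ / (P * Q) + ‖hx q * hy r - hx r * hy q‖ / (Q * R) = (‖hx q * hy r - hx r * hy q‖ * P + ‖hx p * hy q - hx q * hy p‖ * R) / (P * Q * R) := by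
    field_simp
    ring
  rw [e6, e7]
  exact div_le_div_of_nonneg_right hk (by positivity)

lemma XCH_lez (z w : ℂ) : ch (z : S) (w : S) ≤ ‖z - w‖ := by
  rw [XCH_zz]
  apply div_le_self (norm_nonneg _)
  have h1 := XCH_sq2 z
  have h2 := XCH_sq2 w
  nlinarith

lemma XCH_nb (z : ℂ) : ∀ ε > (0 : ℝ), ∃ δ > (0 : ℝ), ∀ q : S, ch q (z : S) < δ → ∃ w : ℂ, q = (w : S) ∧ ‖w - z‖ < ε := by
  intro ε hε
  have hA := XCH_sq1 z
  set A := Real.sqrt (1 + ‖z‖ ^ 2) with hAd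
  refine ⟨min (1 / (2 * A)) (ε / (2 * A ^ 2)), by positivity, ?_⟩
  intro q hq
  have hq1 : ch q (z : S) < 1 / (2 * A) := lt_of_lt_of_le hq (min_le_left _ _)
  have hq2 : ch q (z : S) < ε / (2 * A ^ 2) := lt_of_lt_of_le hq (min_le_right _ _)
  have h12 : 1 / (2 * A) = 1 / A / 2 := by field_simp
  have hAi : 0 < 1 / A := by positivity
  induction q using OnePoint.rec with
  | infty =>
    exfalso
    rw [XCH_iz, ← hAd, h12] at hq1
    linarith
  | coe w =>
    refine ⟨w, rfl, ?_⟩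
    have ht := XCH_tri (z : S) (w : S) OnePoint.infty
    rw [XCH_zi, XCH_zi, ← hAd, XCH_sym (z : S) (w : S)] at ht
    have hB := XCH_sq1 w
    rw [XCH_zz, ← hAd] at hq2
    set B := Real.sqrt (1 + ‖w‖ ^ 2) with hBd
    have h3 : 1 / (2 * A) < 1 / B := by
      rw [h12] at hq1 ⊢
      linarith
    have h4 : B < 2 * A := by
      rwa [div_lt_div_iff₀ (by positivity) hB, one_mul, one_mul] at h3
    rw [div_lt_div_iff₀ (by positivity) (by positivity)] at hq2
    have h5 : ε * (B * A) < ε * (2 * A ^ 2) := by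
      apply mul_lt_mul_of_pos_left _ hε
      nlinarith
    have h6 : ‖w - z‖ * (2 * A ^ 2) < ε * (2 * A ^ 2) := hq2.trans h5
    exact lt_of_mul_lt_mul_right h6 (by positivity)

lemma XCH_ni (R : ℝ) : ∃ δ > (0 : ℝ), ∀ q : S, ch q OnePoint.infty < δ → q = OnePoint.infty ∨ ∃ w : ℂ, q = (w : S) ∧ R < ‖w‖ := by
  have hs : 0 < Real.sqrt (1 + R ^ 2) := Real.sqrt_pos.2 (by positivity)
  refine ⟨1 / Real.sqrt (1 + R ^ 2), by positivity, ?_⟩
  intro q hq
  induction q using OnePoint.rec with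
  | infty => exact Or.inl rfl
  | coe w =>
    right
    refine ⟨w, rfl, ?_⟩
    rw [XCH_zi] at hq
    have hB := XCH_sq1 w
    rw [div_lt_div_iff₀ hB hs, one_mul, one_mul] at hq
    have h1 : 1 + R ^ 2 < 1 + ‖w‖ ^ 2 := (Real.sqrt_lt_sqrt_iff (by positivity)).1 hq
    have h2 : R ^ 2 < ‖w‖ ^ 2 := by linarith
    exact lt_of_le_of_lt (le_abs_self R) (by
      have := sq_lt_sq.1 h2
      rwa [abs_of_nonneg (norm_nonneg w)] at this)

lemma XCH_ex (p : S) : ∀ δ > (0 : ℝ), ∃ q : S, q ≠ p ∧ ch q p < δ := by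
  intro δ hδ
  induction p using OnePoint.rec with
  | infty =>
    refine ⟨((1 / δ : ℝ) : ℂ), OnePoint.coe_ne_infty _, ?_⟩
    rw [XCH_zi]
    have h1 : 1 / δ < Real.sqrt (1 + ‖((1 / δ : ℝ) : ℂ)‖ ^ 2) := by
      apply Real.lt_sqrt_of_sq_lt
      rw [Complex.norm_real, Real.norm_eq_abs, sq_abs]
      linarith
    have h2 : 0 < 1 / δ := by positivity
    rw [div_lt_iff₀ (h2.trans h1)]
    rw [div_lt_iff₀ hδ] at h1
    linarith
  | coe z =>
    refine ⟨((z + ((δ / 2 : ℝ) : ℂ) : ℂ) : S), ?_, ?_⟩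
    · intro h
      have h1 : z + ((δ / 2 : ℝ) : ℂ) = z := OnePoint.coe_injective h
      have h2 : ((δ / 2 : ℝ) : ℂ) = 0 := by simpa using h1
      have h3 : δ / 2 = 0 := by exact_mod_cast h2
      linarith
    · refine lt_of_le_of_lt (XCH_lez _ _) ?_
      have : z + ((δ / 2 : ℝ) : ℂ) - z = ((δ / 2 : ℝ) : ℂ) := by ring
      rw [this, Complex.norm_real, Real.norm_eq_abs, abs_of_pos (by positivity)]
      linarith

theorem XCH : XCH_stmt :=
  ⟨fun p q => ⟨XCH_sym p q, XCH_nn p q, XCH_le1 p q, XCH_eq0 p q⟩, XCH_tri, fun z w z' w' h h' => XCH_fml z w z' w' h h', XCH_pt, XCH_lez,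
    XCH_nb, XCH_ni, XCH_ex⟩

end JX
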